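import Pool.Agent.Helper18.EW.Goals2
import Pool.Agent.Helper34.SG.F1

/-!
# EW-SI: super rows, independence of the conditions
-/

set_option autoImplicit false

namespace Pool.Agent.Helper59.EW

open Finset Pool.Agent.Lead.Sh
open Pool.Agent.Helper18.SG (sig GoalS)

section lin

variable {α β : Type*}

/-- independent rows -/
def LI (S : Finset α) (T : Finset β) (M : α → β → ℂ) : Prop :=
  ∀ l : α → ℂ, (∀ t ∈ T, ∑ s ∈ S, l s * M s t = 0) → ∀ s ∈ S, l s = 0

/-- the linear map of row combinations -/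
noncomputable def fm (S : Finset α) (T : Finset β) (M : α → β → ℂ) :
    (↥S → ℂ) →ₗ[ℂ] (↥T → ℂ) :=
  { toFun := fun l t => ∑ s : ↥S, l s * M s t
    map_add' := by
      intro a b; funext t
      simp only [Pi.add_apply, add_mul, sum_add_distrib]
    map_smul' := by
      intro a b; funext t
      simp only [Pi.smul_apply, smul_eq_mul, RingHom.id_apply, mul_sum, mul_assoc] }

lemma fm_inj {S : Finset α} {T : Finset β} {M : α → β → ℂ} (h : LI S T M) :
    Function.Injective (fm S T M) := by
  classical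
  rw [injective_iff_map_eq_zero]
  intro c hc
  set c2 : α → ℂ := fun s => if h : s ∈ S then c ⟨s, h⟩ else 0 with hc2
  have hc2' : ∀ s : ↥S, c2 s = c s := by
    intro s; simp only [hc2]; rw [dif_pos s.2]
  have := h c2 (by
    intro t ht
    have h1 := congrFun hc ⟨t, ht⟩
    simp only [Pi.zero_apply] at h1
    refine Eq.trans ?_ h1
    rw [← sum_coe_sort S]
    change ∑ i : ↥S, c2 i * M i t = ∑ i : ↥S, c i * M i t
    apply sum_congr rfl
    intro s _
    rw [hc2'])
  funext s
  rw [← hc2', this s s.2, Pi.zero_apply]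

lemma LI.card_le {S : Finset α} {T : Finset β} {M : α → β → ℂ} (h : LI S T M) :
    S.card ≤ T.card := by
  have := LinearMap.finrank_le_finrank_of_injective (fm_inj h)
  simpa using this

lemma LI.square {S : Finset α} {T : Finset β} {M : α → β → ℂ} (h : LI S T M)
    (hc : S.card = T.card) : LI T S (fun t s => M s t) := by
  classical
  have hsurj : Function.Surjective (fm S T M) := by
    rw [← LinearMap.injective_iff_surjective_of_finrank_eq_finrank]
    · exact fm_inj h
    · simp [hc]
  intro c hc' t ht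
  obtain ⟨l, hl⟩ := hsurj (fun t' => if (t' : β) = t then 1 else 0)
  have h1 : ∑ t' : ↥T, c t' * fm S T M l t' = 0 := by
    have e1 : ∀ t' : ↥T, c t' * fm S T M l t' = ∑ s : ↥S, l s * (c t' * M s t') := by
      intro t'
      change c t' * ∑ s : ↥S, l s * M s t' = _
      rw [mul_sum]
      apply sum_congr rfl
      intro s _
      ring
    rw [sum_congr rfl (fun t' _ => e1 t'), sum_comm]
    apply sum_eq_zero
    intro s _
    rw [← mul_sum]
    have h2 := hc' s s.2
    rw [← sum_coe_sort T] at h2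
    change ∑ i : ↥T, c i * M s i = 0 at h2
    rw [h2, mul_zero]
  rw [hl] at h1
  have h3 : ∑ t' : ↥T, c t' * (if (t' : β) = t then (1 : ℂ) else 0) = c t := by
    rw [sum_eq_single (⟨t, ht⟩ : ↥T)]
    · simp
    · intro b _ hb
      rw [if_neg, mul_zero]
      intro hbt
      exact hb (Subtype.ext hbt)
    · intro hnot
      exact absurd (mem_univ _) hnot
  rw [h3] at h1
  exact h1

end lin

/-- exponent -/
noncomputable def exx (d : ℕ × ℕ) : Fin 2 →₀ ℕ := Finsupp.single 0 d.1 + Finsupp.single 1 d.2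

lemma exx_inj : Function.Injective exx := by
  intro a b h
  have h0 := DFunLike.congr_fun h 0
  have h1 := DFunLike.congr_fun h 1
  simp only [exx, Finsupp.add_apply] at h0 h1
  rw [Finsupp.single_eq_same, Finsupp.single_eq_same, Finsupp.single_eq_of_ne (by decide),
    Finsupp.single_eq_of_ne (by decide)] at h0
  rw [Finsupp.single_eq_same, Finsupp.single_eq_same, Finsupp.single_eq_of_ne (by decide),
    Finsupp.single_eq_of_ne (by decide)] at h1
  exact Prod.ext (by simpa using h0) (by simpa using h1)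

lemma nonvanish (D : Finset (ℕ × ℕ)) (c : ℕ × ℕ → ℂ) (d0 : ℕ × ℕ) (hd0 : d0 ∈ D)
    (hc : c d0 ≠ 0) : ∃ x y : ℂ, ∑ d ∈ D, c d * (x ^ d.1 * y ^ d.2) ≠ 0 := by
  classical
  by_contra hcon
  push Not at hcon
  apply hc
  set p : MvPolynomial (Fin 2) ℂ := ∑ d ∈ D, MvPolynomial.monomial (exx d) (c d) with hp
  have hp0 : p = 0 := by
    apply MvPolynomial.funext
    intro x
    rw [hp, map_sum, map_zero, ← hcon (x 0) (x 1)]
    apply sum_congr rfl
    intro d _
    rw [MvPolynomial.eval_monomial]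
    congr 1
    rw [exx, Finsupp.prod_add_index' (by intro a; simp) (by intro a b1 b2; rw [pow_add]),
      Finsupp.prod_single_index (by simp), Finsupp.prod_single_index (by simp)]
  have h1 : MvPolynomial.coeff (exx d0) p = c d0 := by
    rw [hp, MvPolynomial.coeff_sum, sum_eq_single d0]
    · rw [MvPolynomial.coeff_monomial, if_pos rfl]
    · intro b _ hb
      rw [MvPolynomial.coeff_monomial, if_neg]
      intro h
      exact hb (exx_inj h)
    · intro h
      exact absurd hd0 h
  rw [← h1, hp0, MvPolynomial.coeff_zero]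

lemma E_zero (d : ℕ × ℕ) (x y : ℂ) : E (0, 0) d x y = x ^ d.1 * y ^ d.2 := by
  unfold E
  simp

lemma indAt_iff (D : Finset (ℕ × ℕ)) (R : Finset Row) (P : ℕ → ℂ × ℂ) :
    IndAt D R P ↔ LI R D (fun r d => E r.2 d (P r.1).1 (P r.1).2) := Iff.rfl

/-- one more simple point -/
lemma add_one (D : Finset (ℕ × ℕ)) (m : ℕ → ℕ) (s : Finset ℕ) (h : Ind D (rows m s))
    (hlt : (rows m s).card < D.card) : ∃ (m' : ℕ → ℕ) (s' : Finset ℕ), s ⊆ s' ∧
      (∀ k ∈ s, m' k = m k) ∧ Ind D (rows m' s') ∧ (rows m' s').card = (rows m s).card + 1 := by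
  classical
  obtain ⟨P, hP⟩ := h
  obtain ⟨k, hk⟩ : ∃ k, k ∉ s := Infinite.exists_notMem_finset s
  -- the kernel vector
  obtain ⟨c, ⟨d0, hd0, hcd0⟩, hc⟩ : ∃ c : ℕ × ℕ → ℂ, (∃ d ∈ D, c d ≠ 0) ∧
      ∀ r ∈ rows m s, ∑ d ∈ D, c d * E r.2 d (P r.1).1 (P r.1).2 = 0 := by
    by_contra hcon
    push Not at hcon
    have hLI : LI D (rows m s) (fun d r => E r.2 d (P r.1).1 (P r.1).2) := by
      intro l hl d hd
      by_contra hne
      obtain ⟨r, hr, hr'⟩ := hcon l ⟨d, hd, hne⟩
      exact hr' (hl r hr)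
    exact absurd hLI.card_le (not_le.2 hlt)
  obtain ⟨x0, y0, hxy⟩ := nonvanish D c d0 hd0 hcd0
  set m' : ℕ → ℕ := Function.update m k 1 with hm'
  set P' : ℕ → ℂ × ℂ := Function.update P k (x0, y0) with hP'
  have hm'k : m' k = 1 := by rw [hm', Function.update_self]
  have hm's : ∀ j ∈ s, m' j = m j := by
    intro j hj
    rw [hm', Function.update_of_ne]
    rintro rfl
    exact hk hj
  have hrows : rows m' (insert k s) = insert (k, (0, 0)) (rows m s) := by
    ext r
    rw [mem_insert, mem_rows, mem_rows, mem_insert]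
    constructor
    · rintro ⟨h1 | h1, h2⟩
      · left
        rw [h1, hm'k] at h2
        refine Prod.ext h1 (Prod.ext ?_ ?_)
        · change r.2.1 = 0; omega
        · change r.2.2 = 0; omega
      · right
        exact ⟨h1, by rw [← hm's _ h1]; exact h2⟩
    · rintro (h1 | ⟨h1, h2⟩)
      · rw [h1]
        exact ⟨Or.inl rfl, by simp [hm'k]⟩
      · exact ⟨Or.inr h1, by rw [hm's _ h1]; exact h2⟩
  have hnot : (k, ((0 : ℕ), (0 : ℕ))) ∉ rows m s := by
    rw [mem_rows]
    rintro ⟨h1, _⟩
    exact hk h1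
  refine ⟨m', insert k s, subset_insert _ _, hm's, ⟨P', ?_⟩, ?_⟩
  · intro l hl
    rw [hrows] at hl ⊢
    have hPr : ∀ r ∈ rows m s, P' r.1 = P r.1 := by
      intro r hr
      rw [hP', Function.update_of_ne]
      intro h
      rw [mem_rows] at hr
      rw [h] at hr
      exact hk hr.1
    have hPk : P' k = (x0, y0) := by rw [hP', Function.update_self]
    have hl' : ∀ d ∈ D, l (k, (0, 0)) * (x0 ^ d.1 * y0 ^ d.2) +
        ∑ r ∈ rows m s, l r * E r.2 d (P r.1).1 (P r.1).2 = 0 := by
      intro d hd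
      have h1 := hl d hd
      rw [sum_insert hnot] at h1
      rw [← h1]
      congr 1
      · simp only [hPk]
        rw [E_zero]
      · apply sum_congr rfl
        intro r hr
        rw [hPr r hr]
    have hl0 : l (k, (0, 0)) = 0 := by
      have h2 : ∑ d ∈ D, c d * (l (k, (0, 0)) * (x0 ^ d.1 * y0 ^ d.2) +
          ∑ r ∈ rows m s, l r * E r.2 d (P r.1).1 (P r.1).2) = 0 := by
        apply sum_eq_zero
        intro d hd
        rw [hl' d hd, mul_zero]
      have h3 : ∑ d ∈ D, c d * (l (k, (0, 0)) * (x0 ^ d.1 * y0 ^ d.2) +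
          ∑ r ∈ rows m s, l r * E r.2 d (P r.1).1 (P r.1).2) =
          l (k, (0, 0)) * ∑ d ∈ D, c d * (x0 ^ d.1 * y0 ^ d.2) +
          ∑ r ∈ rows m s, l r * ∑ d ∈ D, c d * E r.2 d (P r.1).1 (P r.1).2 := by
        simp_rw [mul_add, sum_add_distrib, mul_sum]
        congr 1
        · apply sum_congr rfl
          intro d _
          ring
        · rw [sum_comm]
          apply sum_congr rfl
          intro r _
          apply sum_congr rfl
          intro d _
          ring
      rw [h3] at h2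
      rw [sum_eq_zero (s := rows m s) (fun r hr => by rw [hc r hr, mul_zero]), add_zero] at h2
      rcases mul_eq_zero.1 h2 with h4 | h4
      · exact h4
      · exact absurd h4 hxy
    intro r hr
    rcases mem_insert.1 hr with h5 | h5
    · rw [h5]; exact hl0
    · refine hP l ?_ r h5
      intro d hd
      have h6 := hl' d hd
      rw [hl0, zero_mul, zero_add] at h6
      exact h6
  · rw [hrows, card_insert_of_notMem hnot]

lemma fill (n : ℕ) : ∀ (D : Finset (ℕ × ℕ)) (m : ℕ → ℕ) (s : Finset ℕ), Ind D (rows m s) →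
    (rows m s).card + n = D.card → ∃ (m' : ℕ → ℕ) (s' : Finset ℕ), s ⊆ s' ∧
      (∀ k ∈ s, m' k = m k) ∧ Ind D (rows m' s') ∧ (rows m' s').card = D.card := by
  induction n with
  | zero =>
    intro D m s h hc
    exact ⟨m, s, subset_rfl, fun _ _ => rfl, h, by simpa using hc⟩
  | succ n ih =>
    intro D m s h hc
    obtain ⟨m1, s1, h1, h2, h3, h4⟩ := add_one D m s h (by omega)
    obtain ⟨m2, s2, k1, k2, k3, k4⟩ := ih D m1 s1 h3 (by omega)
    exact ⟨m2, s2, h1.trans k1, fun k hk => (k2 k (h1 hk)).trans (h2 k hk), k3, k4⟩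

theorem goalSI : Pool.Agent.Helper18.EW.GoalSI := by
  classical
  intro b D m s hS hb hD hI
  have hcard : (D.image (sig b)).card = D.card :=
    card_image_of_injective D (Pool.Agent.Helper34.SG.sig_inj b hb)
  have hle : (rows m s).card ≤ (D.image (sig b)).card := by
    obtain ⟨P, hP⟩ := hI
    exact LI.card_le ((indAt_iff _ _ P).1 hP)
  obtain ⟨m', s', h1, h2, ⟨P, hP⟩, h4⟩ := fill ((D.image (sig b)).card - (rows m s).card)
    (D.image (sig b)) m s hI (by omega)
  have hInj : Inj (D.image (sig b)) (rows m' s') := by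
    refine ⟨P, ?_⟩
    have h5 := LI.square ((indAt_iff _ _ P).1 hP) h4
    intro c hc
    exact h5 c hc
  obtain ⟨Q, hQ⟩ := hS b D m' s' hb hD hInj
  have hInd : Ind D (rows m' s') := ⟨Q, hQ.ind (h4.trans hcard)⟩
  refine hInd.mono subset_rfl ?_
  rw [← Pool.Agent.Helper43.Ah.rows_congr h2]
  exact rows_mono h1

end Pool.Agent.Helper59.EW
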